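import Pool.Agent.Helper95.HV.Stmts
import Pool.Agent.Helper76.LN.FF

/-! # Row FFZ (MP_56acfd_mp): the field of the far charges, with explicit powers of `z` -/

set_option autoImplicit false

namespace Pool.Agent.Helper11.HV

open MeasureTheory Filter Pool.Agent.Helper95.PW Pool.Agent.Helper95.LN Pool.Agent.Helper95.CF
  Pool.Agent.Helper95.HV Pool.Agent.Helper76.LN.FF76

/-- row FFZ -/
theorem FFZ (hMVP : ST_MVP) (hPHA : ST_PHA) (hPHB : ST_PHB) (hPHC : ST_PHC) (hNBZ : ST_NBZ)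
    (hDEX : ST_DEX) : ST_FFZ := by
  intro d hd hd1
  obtain ⟨CN, hCN, hN⟩ := hNBZ d hd hd1
  obtain ⟨C0, hC0, hC⟩ := hPHC.2.2.1
  have hk := hPHC.2.1
  set K1 : ℝ := (1 / 2 * (C0 / (d / 4) ^ 3) + 1 / 2 * kap) / kap with hK1
  have hK10 : 0 < K1 := by
    rw [hK1]
    positivity
  set Q : ℝ := 4 / (d / 8) ^ 2 with hQ
  have hQ0 : 0 < Q := by
    rw [hQ]
    positivity
  refine ⟨2 * K1 ^ 2 * (kap + 1) + 4 * Q ^ 2 * (CN + 1), by positivity, ?_⟩
  intro z n M X Z x hDat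
  have hX := hDat.sep
  have hz1 := hDat.z1
  have hz : 0 ≤ z := by linarith
  have hZ0 : ∀ j, 0 ≤ Z j := hDat.nuc.1
  have hZ := hDat.le
  have hD0 : ∀ i, 0 ≤ Di d X Z x i := Di_nonneg d X Z x
  have hDs := Di_sum hDEX hPHC d hd X Z x hX
  have hNs := hN z n M X Z x hDat
  have hDn : 0 ≤ Dn (d / 8) X Z x := by
    unfold Dn
    apply mul_nonneg (by positivity)
    exact integral_nonneg (fun _ => Finset.sum_nonneg (fun _ _ => sq_nonneg _))
  refine ⟨fun i => K1 * Real.sqrt (Di d X Z x i + 1) + (cnt X (3 / 2 * d) x i + z) * Q, ?_, ?_⟩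
  · intro i m y hy
    have hsq : 0 < Real.sqrt (Di d X Z x i + 1) := Real.sqrt_pos.2 (by linarith [hD0 i])
    have hss : Real.sqrt (Di d X Z x i + 1) ^ 2 = Di d X Z x i + 1 :=
      Real.sq_sqrt (by linarith [hD0 i])
    have h1 := far_le hMVP hPHA hPHB hPHC hDEX z d C0 (1 / Real.sqrt (Di d X Z x i + 1))
      (by positivity) hC0 hC hz hd X Z x hX hZ0 hZ i m y hy
    set R := Real.sqrt (Di d X Z x i + 1) with hR
    have h2 : 1 / R / 2 * (C0 / (d / 4) ^ 3) * Di d X Z x i ≤ 1 / 2 * (C0 / (d / 4) ^ 3) * R := by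
      have h3 : 1 / R / 2 * (C0 / (d / 4) ^ 3) * Di d X Z x i ≤
          1 / R / 2 * (C0 / (d / 4) ^ 3) * R ^ 2 := by
        apply mul_le_mul_of_nonneg_left _ (by positivity)
        rw [hss]; linarith
      refine h3.trans (le_of_eq ?_)
      field_simp
    have h4 : 1 / (2 * (1 / R)) = 1 / 2 * R := by
      field_simp
    rw [h4] at h1
    have h5 : kap * |farE d X Z x i m y| ≤ kap * (K1 * R + (cnt X (3 / 2 * d) x i + z) * Q) := by
      refine h1.trans ?_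
      have h6 : kap * (K1 * R + (cnt X (3 / 2 * d) x i + z) * Q) =
          1 / 2 * (C0 / (d / 4) ^ 3) * R + (1 / 2 * R + (cnt X (3 / 2 * d) x i + z) * Q) * kap := by
        rw [hK1]
        field_simp
        ring
      rw [h6]
      linarith
    exact le_of_mul_le_mul_left h5 hk
  · have h1 : ∀ i, (K1 * Real.sqrt (Di d X Z x i + 1) + (cnt X (3 / 2 * d) x i + z) * Q) ^ 2 ≤
        2 * K1 ^ 2 * (Di d X Z x i + 1) +
          4 * Q ^ 2 * (cnt X (3 / 2 * d) x i ^ 2 + z ^ 2) := by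
      intro i
      have hss : Real.sqrt (Di d X Z x i + 1) ^ 2 = Di d X Z x i + 1 :=
        Real.sq_sqrt (by linarith [hD0 i])
      set R := Real.sqrt (Di d X Z x i + 1) with hR
      rw [← hss]
      have h2 : 0 ≤ (K1 * R - (cnt X (3 / 2 * d) x i + z) * Q) ^ 2 := sq_nonneg _
      have h3 : 0 ≤ Q ^ 2 * (cnt X (3 / 2 * d) x i - z) ^ 2 := by positivity
      nlinarith [h2, h3]
    refine (Finset.sum_le_sum (fun i _ => h1 i)).trans ?_
    rw [Finset.sum_add_distrib, ← Finset.mul_sum, ← Finset.mul_sum, Finset.sum_add_distrib,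
      Finset.sum_add_distrib]
    simp only [Finset.sum_const, Finset.card_univ, Fintype.card_fin, nsmul_eq_mul, mul_one]
    have h5 : (0 : ℝ) ≤ M := Nat.cast_nonneg M
    have hz2 : 1 ≤ z ^ 2 := by nlinarith
    have h5' : (M : ℝ) ≤ z ^ 2 * M := by nlinarith
    have h4 : 2 * K1 ^ 2 * (∑ i, Di d X Z x i + (M : ℝ)) ≤
        2 * K1 ^ 2 * ((kap + 1) * (z ^ 2 * M + Dn (d / 8) X Z x)) := by
      apply mul_le_mul_of_nonneg_left _ (by positivity)
      have h7 : 0 ≤ kap * (z ^ 2 * M) := by positivity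
      nlinarith
    have h6 : 4 * Q ^ 2 * (∑ i, cnt X (3 / 2 * d) x i ^ 2 + (M : ℝ) * z ^ 2) ≤
        4 * Q ^ 2 * ((CN + 1) * (z ^ 2 * M + Dn (d / 8) X Z x)) := by
      apply mul_le_mul_of_nonneg_left _ (by positivity)
      nlinarith
    calc _ ≤ 2 * K1 ^ 2 * ((kap + 1) * (z ^ 2 * M + Dn (d / 8) X Z x)) +
          4 * Q ^ 2 * ((CN + 1) * (z ^ 2 * M + Dn (d / 8) X Z x)) := add_le_add h4 h6
      _ = _ := by ring

end Pool.Agent.Helper11.HV
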